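import Pool.Agent.Lib.UMB.Asm.Br
import Pool.Agent.Lib.UMB.S1.Met

set_option autoImplicit false

/-!
# UMB, block BR: the concrete metric and the concrete operator are admissible

`met`: `gh` is a smooth Riemannian metric on `{max a 0 < |x|}`. `op_ok`: the operator satisfies `OpData.Ok`.
`gh_eq`, `gh_flat`, `kh_eq`, `kh_zero`, `p_two`, `p_q`: the values of the cut-offs.
-/

open Filter Topology Set MeasureTheory
open scoped ContDiff

namespace UMB.BR

open Pool.Agent.Lib.PenroseSph (E3 Tens pd chr gradNorm admFlux)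
open UMB.Lin (Ann cAnn)

variable {P : Par}

/-- The domain. -/
theorem isOpen_dom (a : ℝ) : IsOpen {x : E3 | max a 0 < ‖x‖} := isOpen_lt continuous_const continuous_norm

theorem dom_sub {a : ℝ} : {x : E3 | max a 0 < ‖x‖} ⊆ {x : E3 | a < ‖x‖} := by
  intro x hx
  have h1 : max a 0 < ‖x‖ := hx
  show a < ‖x‖
  exact lt_of_le_of_lt (le_max_left a 0) h1

theorem dom_ne {a : ℝ} {x : E3} (hx : max a 0 < ‖x‖) : x ≠ 0 := by
  intro h
  rw [h, norm_zero] at hx
  exact absurd hx (not_lt.2 (le_max_right _ _))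

theorem norm_smooth (a : ℝ) : ContDiffOn ℝ ∞ (fun x : E3 => ‖x‖) {x : E3 | max a 0 < ‖x‖} := by
  intro x hx
  exact (contDiffAt_norm ℝ (dom_ne hx)).contDiffWithinAt

theorem chi_smooth : ContDiffOn ℝ ∞ (fun x : E3 => P.chi ‖x‖) {x : E3 | max P.a 0 < ‖x‖} := by
  unfold Par.chi
  exact Real.smoothTransition.contDiff.comp_contDiffOn
    (contDiffOn_const.sub (contDiffOn_const.mul ((norm_smooth P.a).div_const _)))

theorem chk_smooth : ContDiffOn ℝ ∞ (fun x : E3 => P.chk ‖x‖) {x : E3 | max P.a 0 < ‖x‖} := by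
  unfold Par.chk
  exact Real.smoothTransition.contDiff.comp_contDiffOn
    (contDiffOn_const.sub (contDiffOn_const.mul ((norm_smooth P.a).div_const _)))

/-- The values of the cut-offs. -/
theorem chi_one (h : P.Ok) {r : ℝ} (hr : r ≤ 3 / 2 * P.R1) : P.chi r = 1 := by
  unfold Par.chi
  apply Real.smoothTransition.one_of_one_le
  have h1 : r / P.R1 ≤ 3 / 2 := by
    rw [div_le_iff₀ h.R1_pos]
    exact hr
  linarith

theorem chi_zero (h : P.Ok) {r : ℝ} (hr : 2 * P.R1 ≤ r) : P.chi r = 0 := by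
  unfold Par.chi
  apply Real.smoothTransition.zero_of_nonpos
  have h1 : 2 ≤ r / P.R1 := by
    rw [le_div_iff₀ h.R1_pos]
    exact hr
  linarith

theorem chk_one (h : P.Ok) {r : ℝ} (hr : r ≤ P.R1) : P.chk r = 1 := by
  unfold Par.chk
  apply Real.smoothTransition.one_of_one_le
  have h1 : r / P.R1 ≤ 1 := by
    rw [div_le_iff₀ h.R1_pos, one_mul]
    exact hr
  linarith

theorem chk_zero (h : P.Ok) {r : ℝ} (hr : 5 / 4 * P.R1 ≤ r) : P.chk r = 0 := by
  unfold Par.chk
  apply Real.smoothTransition.zero_of_nonpos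
  have h1 : 5 / 4 ≤ r / P.R1 := by
    rw [le_div_iff₀ h.R1_pos]
    exact hr
  linarith

/-- `gh = g` for `|x| ≤ 3R1/2`. -/
theorem gh_eq (h : P.Ok) {x : E3} (hx : ‖x‖ ≤ 3 / 2 * P.R1) : P.gh x = P.g x := by
  unfold Par.gh
  rw [chi_one h hx, one_smul, sub_self, zero_smul, add_zero]

/-- `gh` is flat for `|x| ≥ 2R1`. -/
theorem gh_flat (h : P.Ok) {x : E3} (hx : 2 * P.R1 ≤ ‖x‖) : P.gh x = 1 := by
  unfold Par.gh
  rw [chi_zero h hx, zero_smul, sub_zero, one_smul, zero_add]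

/-- `kh = k` for `|x| ≤ R1`. -/
theorem kh_eq (h : P.Ok) {x : E3} (hx : ‖x‖ ≤ P.R1) : P.kh x = P.k x := by
  unfold Par.kh
  rw [chk_one h hx, one_smul]

/-- `kh = 0` for `|x| ≥ 5R1/4`. -/
theorem kh_zero (h : P.Ok) {x : E3} (hx : 5 / 4 * P.R1 ≤ ‖x‖) : P.kh x = 0 := by
  unfold Par.kh
  rw [chk_zero h hx, zero_smul]

/-- `gh = g` near a point with `|x| < 3R1/2`. -/
theorem gh_ev (h : P.Ok) {x : E3} (hx : ‖x‖ < 3 / 2 * P.R1) : P.gh =ᶠ[𝓝 x] P.g := by
  filter_upwards [(isOpen_lt continuous_norm continuous_const).mem_nhds hx] with y hy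
  exact gh_eq h (le_of_lt hy)

/-- `gh = 1` near a point with `|x| > 2R1`. -/
theorem gh_ev_flat (h : P.Ok) {x : E3} (hx : 2 * P.R1 < ‖x‖) : P.gh =ᶠ[𝓝 x] fun _ => 1 := by
  filter_upwards [(isOpen_lt continuous_const continuous_norm).mem_nhds hx] with y hy
  exact gh_flat h (le_of_lt hy)

/-- The exponent is `2` for `z ≤ v1`. -/
theorem p_two (h : P.Ok) {z : ℝ} (hz : z ≤ P.v1) : P.p z = 2 := by
  unfold Par.p Par.b
  rw [Real.smoothTransition.one_of_one_le]
  · ring
  · rw [le_div_iff₀ h.v1_pos]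
    linarith

/-- The exponent is `1 + q` for `z ≥ 2 v1`. -/
theorem p_q (h : P.Ok) {z : ℝ} (hz : 2 * P.v1 ≤ z) : P.p z = 1 + P.q := by
  unfold Par.p Par.b
  rw [Real.smoothTransition.zero_of_nonpos]
  · ring
  · apply div_nonpos_of_nonpos_of_nonneg _ h.v1_pos.le
    linarith

/-- **`gh` is a metric.** -/
theorem met (hg : AF P.g P.a) (h : P.Ok) : MetOn P.gh {x : E3 | max P.a 0 < ‖x‖} where
  isOpen := isOpen_dom P.a
  smooth := by
    intro i j
    have h1 := chi_smooth (P := P)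
    have h2 := (hg.smooth i j).mono (dom_sub (a := P.a))
    have h3 : ContDiffOn ℝ ∞ (fun x : E3 => P.chi ‖x‖ * P.g x i j +
        (1 - P.chi ‖x‖) * (1 : Matrix (Fin 3) (Fin 3) ℝ) i j) {x : E3 | max P.a 0 < ‖x‖} :=
      (h1.mul h2).add ((contDiffOn_const.sub h1).mul contDiffOn_const)
    exact h3
  symm := by
    intro x hx
    have h1 := hg.symm x (dom_sub hx)
    unfold Par.gh
    exact (h1.smul _).add (Matrix.isSymm_one.smul _)
  pos := by
    intro x hx v hv
    have h1 := hg.pos x (dom_sub hx) v hv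
    have h2 : 0 < ∑ i, v i * v i := by
      obtain ⟨i, hi⟩ := Function.ne_iff.1 hv
      exact Finset.sum_pos' (fun i _ => mul_self_nonneg _) ⟨i, Finset.mem_univ i, mul_self_pos.2 hi⟩
    have h3 : ∑ i, ∑ j, P.gh x i j * v i * v j = P.chi ‖x‖ * quad P.g x v + (1 - P.chi ‖x‖) * ∑ i, v i * v i := by
      unfold Par.gh quad
      simp only [Fin.sum_univ_three, Matrix.add_apply, Matrix.smul_apply, Matrix.one_apply, smul_eq_mul]
      simp
      ring
    rw [h3]
    have h4 : 0 ≤ P.chi ‖x‖ := Real.smoothTransition.nonneg _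
    have h5 : P.chi ‖x‖ ≤ 1 := Real.smoothTransition.le_one _
    rcases eq_or_lt_of_le h4 with h6 | h6
    · rw [← h6]; linarith
    · have h7 := mul_pos h6 h1
      have h8 := mul_nonneg (sub_nonneg.2 h5) h2.le
      linarith

/-- The Christoffel symbols of a smooth metric are smooth. -/
theorem chr_smooth {g : Tens} {U : Set E3} (h : MetOn g U) (m i j : Fin 3) : ContDiffOn ℝ ∞ (chr g m i j) U := by
  intro x hx
  have hU := h.isOpen.mem_nhds hx
  have hs : ∀ i j, ContDiffAt ℝ ∞ (fun y => g y i j) x := fun i j => (h.smooth i j).contDiffAt hU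
  have hpd : ∀ k i j, ContDiffAt ℝ ∞ (pd k (fun y => g y i j)) x := by
    intro k i j
    have h1 : ContDiffAt ℝ ∞ (fderiv ℝ (fun y => g y i j)) x := (hs i j).fderiv_right (m := ∞) le_rfl
    exact h1.clm_apply contDiffAt_const
  have hi : ∀ i j, ContDiffAt ℝ ∞ (fun y => (g y)⁻¹ i j) x := fun i j => (h.inv_smooth i j).contDiffAt hU
  apply ContDiffAt.contDiffWithinAt
  unfold chr
  apply contDiffAt_const.mul
  apply ContDiffAt.sum
  intro l _
  exact (hi m l).mul (((hpd i j l).add (hpd j i l)).sub (hpd l i j))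

/-- **The operator is admissible**, for parameters `P`. -/
theorem op_ok_par (hg : AF P.g P.a) (hk : ∀ i j, ContDiffOn ℝ ∞ (fun x => P.k x i j) {x : E3 | P.a < ‖x‖}) (h : P.Ok) :
    P.op.Ok where
  a_nonneg := le_max_right _ _
  a_lt := max_lt hg.lt one_pos
  one_lt_R := h.one_lt_R
  one_lt_p0 := by
    show 1 < 1 + P.q
    linarith [h.q_pos]
  p0_le := by
    show 1 + P.q ≤ 2
    linarith [h.q_lt]
  eps_pos := h.eps_pos
  d_pos := h.d_pos
  G_smooth := (met hg h).inv_smooth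
  k_smooth := by
    intro i j
    exact (chk_smooth (P := P)).mul ((hk i j).mono (dom_sub (a := P.a)))
  Gam_smooth := fun i k l => chr_smooth (met hg h) i k l
  G_symm := by
    intro x hx
    have h1 := (met hg h).inv_symm hx
    apply Matrix.IsSymm.ext
    intro i j
    exact h1 j i
  G_pos := by
    intro x hx u hu
    have h1 := ((met hg h).posDef hx).inv
    have h2 := h1.dotProduct_mulVec_pos hu
    have e : star u ⬝ᵥ ((P.gh x)⁻¹).mulVec u = q1 ((P.gh x)⁻¹) u := by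
      simp only [q1, dotProduct, Matrix.mulVec, Pi.star_apply, star_trivial, Finset.mul_sum]
      exact Finset.sum_congr rfl fun i _ => Finset.sum_congr rfl fun j _ => by ring
    rw [e] at h2
    exact h2
  p_smooth := h.expo.smooth
  p_ge := h.expo.ge
  p_le := h.expo.le
  eta_smooth := h.eta_smooth
  eta_nonneg := h.eta_nonneg
  eta_supp := h.eta_supp
  eta_int := h.eta_int

/-- **`op_ok'` of `Asm/Top.lean`.** -/
theorem op_ok {g k : Tens} {a K η0 R0 δ' : ℝ} {η : E3 → ℝ} (hg : AF g a) (hk : Adm g k a K η η0 R0 δ')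
    {c0 q R1 R eps d : ℝ} {eta : E3 → ℝ} (hP : (mkP g k a c0 q R1 R eps d eta).Ok) :
    (mkP g k a c0 q R1 R eps d eta).op.Ok :=
  op_ok_par (P := mkP g k a c0 q R1 R eps d eta) hg hk.smooth hP

end UMB.BR
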