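import Pool.Agent.Lib.UMB.BR.Top
import Pool.Agent.Lib.UMB.Lin.P8

set_option autoImplicit false

/-!
# UMB, block BR: values and boundary gradient of a solution, `C³` regularity of `θ` near the closed annulus
-/

open Filter Topology Set MeasureTheory
open scoped ContDiff

namespace UMB.BR

open Pool.Agent.Lib.PenroseSph (E3 Tens pd chr gradNorm admFlux)
open UMB.Lin (Ann cAnn)

theorem isCompact_cAnn (R : ℝ) : IsCompact (cAnn R) := by
  apply Metric.isCompact_of_isClosed_isBounded (isClosed_annC R)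
  apply (Metric.isBounded_closedBall (x := (0:E3)) (r := R)).subset
  intro x hx
  rw [mem_closedBall_zero_iff]
  exact hx.2

/-- Cut-off: a function of class `C^n` near a compact set agrees near the compact set with a global one. -/
theorem glob {K U : Set E3} (hK : IsCompact K) (hU : IsOpen U) (hKU : K ⊆ U) {n : ℕ} {v : E3 → ℝ}
    (hv : ContDiffOn ℝ n v U) : ∃ w : E3 → ℝ, ContDiff ℝ n w ∧ ∀ x ∈ K, w =ᶠ[𝓝 x] v := by
  obtain ⟨L, hL, hKL, hLU⟩ := exists_compact_between hK hU hKU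
  obtain ⟨f, hf1, hf2, hf3⟩ := exists_contMDiffMap_one_nhds_of_subset_interior (n := ⊤) (I := modelWithCornersSelf ℝ E3)
    hK.isClosed hKL
  have hf : ContDiff ℝ ∞ (f : E3 → ℝ) := contMDiff_iff_contDiff.1 f.contMDiff
  have hfn : ContDiff ℝ n (f : E3 → ℝ) := hf.of_le (by exact_mod_cast le_top)
  refine ⟨fun x => f x * v x, ?_, ?_⟩
  · rw [contDiff_iff_contDiffAt]
    intro x
    by_cases hx : x ∈ U
    · exact hfn.contDiffAt.mul ((hv x hx).contDiffAt (hU.mem_nhds hx))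
    · have h1 : (fun x => f x * v x) =ᶠ[𝓝 x] fun _ => 0 := by
        filter_upwards [hL.isClosed.isOpen_compl.mem_nhds (fun h => hx (hLU h))] with y hy
        rw [hf2 y hy, zero_mul]
      exact contDiffAt_const.congr_of_eventuallyEq h1
  · intro x hx
    have h2 : ∀ᶠ y in 𝓝 x, f y = 1 := hf1.filter_mono (nhds_le_nhdsSet hx)
    filter_upwards [h2] with y hy
    rw [hy, one_mul]

section sol

variable {D : OpData} {v : E3 → ℝ}

/-- The coefficients of a solution. -/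
theorem sol_good (hD : D.Ok) (hv : W.Sol D v) : ∃ lam B : ℝ, 0 < lam ∧ 0 ≤ B ∧
    UMB.Lin.CGood D.R lam B (UMB.Lin.ga D v) (UMB.Lin.gb D v) (fun _ => 0) ∧
    ∀ x ∈ Ann D.R, UMB.Lin.Lc (UMB.Lin.ga D v) (UMB.Lin.gb D v) (fun _ => 0) v x = 0 := by
  obtain ⟨lam, B, hlam, hB, hc⟩ := UMB.Lin.p8_cmap hD
  have hK : UMB.Lin.K01 D.R v := ⟨hv.cont, fun x hx => ⟨hv.nonneg x hx, hv.le_one x hx⟩⟩
  refine ⟨lam, B 0, hlam, hB 0, UMB.Lin.cgood_of_cbd (hc.cbd v hK), ?_⟩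
  intro x hx
  have h4 := UMB.Lin.p4_eq hD v (x := x) hx.1.le
  have h5 := hv.solves x hx
  unfold UMB.Lin.Lc
  simp only [h4.2.1, h4.2.2]
  unfold tr2 D2 D1 at h5
  linarith

theorem sol_c2c (hv : W.Sol D v) : UMB.Lin.C2c D.R v where
  c2 := by
    intro x hx
    exact ((hv.smooth x hx).contDiffAt ((isOpen_annO D.R).mem_nhds hx)).of_le (WithTop.coe_le_coe.2 (le_top : (2 : ℕ∞) ≤ ⊤))
  cont := hv.cont

/-- `0 < v < 1` inside. -/
theorem sol_between (hD : D.Ok) (hv : W.Sol D v) {x : E3} (hx : x ∈ Ann D.R) : 0 < v x ∧ v x < 1 := by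
  obtain ⟨lam, B, hlam, hB, hG, hL⟩ := sol_good hD hv
  exact UMB.Lin.between hD.one_lt_R hlam hB hG (sol_c2c hv) hL hv.one hv.zero x hx

/-- Hopf: the radial derivative on both spheres is negative. -/
theorem sol_hopf (hD : D.Ok) (hv : W.Sol D v) :
    ∃ c1 : ℝ, 0 < c1 ∧ ∀ x : E3, (‖x‖ = 1 ∨ ‖x‖ = D.R) → fderiv ℝ v x x ≤ -c1 := by
  obtain ⟨lam, B, hlam, hB, hG, hL⟩ := sol_good hD hv
  obtain ⟨U, hU, hKU, hv3⟩ := hv.near
  have hv2 : ContDiffOn ℝ (2 : ℕ) v U := hv3.of_le (by norm_num)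
  obtain ⟨w, hw, hwv⟩ := glob (isCompact_cAnn D.R) hU hKU hv2
  obtain ⟨c1, K1, hc1, h⟩ := UMB.Lin.hopf hD.one_lt_R hlam hB
  have hb : ∀ x : E3, (‖x‖ = 1 ∨ ‖x‖ = D.R) → x ∈ cAnn D.R := by
    intro x hx
    rcases hx with hx | hx
    · exact ⟨hx.ge, by rw [hx]; exact hD.one_lt_R.le⟩
    · exact ⟨by rw [hx]; exact hD.one_lt_R.le, hx.le⟩
  have hLw : ∀ x ∈ Ann D.R, UMB.Lin.Lc (UMB.Lin.ga D v) (UMB.Lin.gb D v) (fun _ => 0) w x = 0 := by
    intro x hx
    have hev := hwv x ⟨hx.1.le, hx.2.le⟩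
    have hLx := hL x hx
    unfold UMB.Lin.Lc at hLx ⊢
    have h1 : ∀ i, pd i w x = pd i v x := fun i => by
      unfold pd
      rw [hev.fderiv_eq]
    have h2 : ∀ i j, pd i (pd j w) x = pd i (pd j v) x := fun i j => by
      have h3 : pd j w =ᶠ[𝓝 x] pd j v := by
        filter_upwards [hev.eventuallyEq_nhds] with y hy
        unfold pd
        rw [hy.fderiv_eq]
      show fderiv ℝ (pd j w) x _ = fderiv ℝ (pd j v) x _
      rw [h3.fderiv_eq]
    simp only [h1, h2, hev.eq_of_nhds]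
    exact hLx
  refine ⟨c1, hc1, fun x hx => ?_⟩
  have h1 := (h _ _ hG w hw hLw (fun x hx => by rw [(hwv x (hb x (Or.inl hx))).eq_of_nhds, hv.one x hx])
    (fun x hx => by rw [(hwv x (hb x (Or.inr hx))).eq_of_nhds, hv.zero x hx]) x hx).1
  have h2 : UMB.Lin.Z 0 w x = fderiv ℝ v x x := by
    unfold UMB.Lin.Z
    rw [(hwv x (hb x hx)).fderiv_eq]
    rfl
  rw [h2] at h1
  linarith

/-- The gradient does not vanish on both spheres. -/
theorem sol_ne (hD : D.Ok) (hv : W.Sol D v) {x : E3} (hx : ‖x‖ = 1 ∨ ‖x‖ = D.R) : fderiv ℝ v x ≠ 0 := by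
  obtain ⟨c1, hc1, h⟩ := sol_hopf hD hv
  intro h0
  have := h x hx
  rw [h0] at this
  simp at this
  linarith

end sol

section theta

variable {P : Par} {v : E3 → ℝ}

/-- `θ` is of class `C³` near the closed annulus. -/
theorem th_near (h : P.Ok) (hκ : 0 < P.kap v) (hv : W.Sol P.op v) :
    ∃ U : Set E3, IsOpen U ∧ cAnn P.R ⊆ U ∧ ContDiffOn ℝ 3 (P.th v) U := by
  obtain ⟨U, hU, hKU, hv3⟩ := hv.near
  have he := h.expo
  have hc : Continuous (W.KK P.p) := (W.KK_smooth he).continuous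
  have hO : IsOpen {z : ℝ | 0 < W.KK P.p z + P.kap v} := isOpen_lt continuous_const (hc.add continuous_const)
  refine ⟨U ∩ v ⁻¹' {z : ℝ | 0 < W.KK P.p z + P.kap v}, hv3.continuousOn.isOpen_inter_preimage hU hO, ?_, ?_⟩
  · intro x hx
    exact ⟨hKU hx, W.e1_pos he hκ (hv.nonneg x hx)⟩
  · have h1 : ContDiffOn ℝ 3 (W.FF P.p (P.kap v)) {z : ℝ | 0 < W.KK P.p z + P.kap v} :=
      (W.FF_smooth he hκ).of_le (WithTop.coe_le_coe.2 (le_top : (3 : ℕ∞) ≤ ⊤))
    exact h1.comp (hv3.mono inter_subset_left) fun x hx => hx.2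

/-- The derivative of `θ` on the closed annulus. -/
theorem th_fderiv (h : P.Ok) (hκ : 0 < P.kap v) (hv : W.Sol P.op v) {x : E3} (hx : x ∈ cAnn P.R) :
    fderiv ℝ (P.th v) x = (-(W.KK P.p (v x) + P.kap v)⁻¹) • fderiv ℝ v x := by
  obtain ⟨U, hU, hKU, hv3⟩ := hv.near
  have hd : DifferentiableAt ℝ v x :=
    ((hv3 x (hKU hx)).contDiffAt (hU.mem_nhds (hKU hx))).differentiableAt (by norm_num)
  exact ((W.FF_deriv h.expo hκ (hv.nonneg x hx)).comp_hasFDerivAt x hd.hasFDerivAt).fderiv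

/-- `dθ ≠ 0` on both spheres. -/
theorem th_ne (hD : P.op.Ok) (h : P.Ok) (hκ : 0 < P.kap v) (hv : W.Sol P.op v) {x : E3} (hx : ‖x‖ = 1 ∨ ‖x‖ = P.R) :
    fderiv ℝ (P.th v) x ≠ 0 := by
  have hxc : x ∈ cAnn P.R := by
    rcases hx with hx | hx
    · exact ⟨hx.ge, by rw [hx]; exact h.one_lt_R.le⟩
    · exact ⟨by rw [hx]; exact h.one_lt_R.le, hx.le⟩
  rw [th_fderiv h hκ hv hxc]
  exact smul_ne_zero (neg_ne_zero.2 (inv_ne_zero (W.e1_pos h.expo hκ (hv.nonneg x hxc)).ne')) (sol_ne hD hv hx)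

/-- `0 < θ < T` inside. -/
theorem th_between (hD : P.op.Ok) (h : P.Ok) (hκ : 0 < P.kap v) (hv : W.Sol P.op v) {x : E3} (hx : x ∈ Ann P.R) :
    0 < P.th v x ∧ P.th v x < P.T v := by
  have hb := sol_between hD hv (x := x) hx
  have ha := W.FF_anti h.expo hκ
  constructor
  · have h1 := ha (mem_Ici.2 hb.1.le) (mem_Ici.2 zero_le_one) hb.2
    rw [W.FF_one] at h1
    exact h1
  · exact ha (mem_Ici.2 le_rfl) (mem_Ici.2 hb.1.le) hb.1

end theta

end UMB.BR
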