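import Pool.Agent.Lib.UMB.BR.Hopf
import Pool.Agent.Lib.UMB.M.KL

set_option autoImplicit false

/-!
# UMB, block BR: `W.Sol → SolX`, `LF` for `θ`, `GK` for the data
-/

open Filter Topology Set MeasureTheory
open scoped ContDiff

namespace UMB.BR

open Pool.Agent.Lib.PenroseSph (E3 Tens pd chr gradNorm admFlux)
open UMB.Lin (Ann cAnn)

theorem fderiv_zero_of_D1 {v : E3 → ℝ} {x : E3} (h : D1 v x = 0) : fderiv ℝ v x = 0 := by
  have h1 : ∀ i : Fin 3, fderiv ℝ v x (EuclideanSpace.single i 1) = 0 := fun i => congrFun h i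
  ext y
  have h2 : y = ∑ i, y i • (EuclideanSpace.single i (1 : ℝ) : E3) := by
    ext j
    fin_cases j <;> simp [Fin.sum_univ_three]
  rw [h2]
  simp only [map_sum, map_smul, h1, smul_zero, Finset.sum_const_zero]
  simp

/-- A solution satisfies the additional conditions. -/
theorem solX {D : OpData} (hD : D.Ok) {v : E3 → ℝ} (hv : W.Sol D v) : SolX D v where
  toSol := hv
  c3 := hv.near
  pos := fun _ hx => (sol_between hD hv hx).1
  lt_one := fun _ hx => (sol_between hD hv hx).2
  nz := fun _ hx h => sol_ne hD hv hx (fderiv_zero_of_D1 h)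

/-- `θ` belongs to the class `LF`. -/
theorem lf {P : Par} {v : E3 → ℝ} (hD : P.op.Ok) (hκ : 0 < P.kap v) (hv : W.Sol P.op v) :
    LF P.R 0 (P.T v) (P.th v) :=
  LF_theta hD (solX hD hv) hκ

/-- The metric and the tensor of section 1. -/
theorem gk {g k : Tens} {a K η0 R0 δ' : ℝ} {η : E3 → ℝ} (hg : AF g a) (hk : Adm g k a K η η0 R0 δ') : GK g k a where
  lt := hg.lt
  met := ⟨isOpen_lt continuous_const continuous_norm, hg.smooth, hg.symm, hg.pos⟩
  smooth := hk.smooth
  symm := fun x hx => hk.symm x hx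

end UMB.BR
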